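import Pool.Agent.W761.CB.Stms
import Pool.Agent.W975.CB.Ms
import Pool.Agent.W366.CB.Lam
import Pool.Agent.W338.CB.Ad
import Pool.Agent.W417.CB.Ebc

/-!
# Derivatives of the Weyl operators
-/

set_option autoImplicit false

open MeasureTheory Filter Topology
open scoped ENNReal

namespace Pool.Agent.W99.CB

open Pool.Agent.W761.CB
open Pool.Agent.W366.CB (card_ms meas_card int_card norm_prod meas_of meas_mk)

noncomputable section

theorem hMS : S_MS := Pool.Agent.W975.CB.proof_ms
theorem hLAM : S_LAM := Pool.Agent.W366.CB.proof_lam hMS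
theorem hAD : S_AD := Pool.Agent.W338.CB.proof_ad hMS hLAM
theorem hEBC : S_EBC := Pool.Agent.W417.CB.proof_ebc hMS hLAM

variable {X : Type}

/-! ### multisets -/

theorem norm_msum_le {α : Type} (T : Multiset α) (f : α → ℂ) (b : α → ℝ) (h : ∀ p, ‖f p‖ ≤ b p) :
    ‖(T.map f).sum‖ ≤ (T.map b).sum := by
  induction T using Multiset.induction_on with
  | empty => simp
  | cons a T ih =>
    rw [Multiset.map_cons, Multiset.sum_cons, Multiset.map_cons, Multiset.sum_cons]
    exact (norm_add_le _ _).trans (add_le_add (h a) ih)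

theorem hasDeriv_sum {α : Type} (T : Multiset α) (f : α → ℝ → ℂ) (f' : α → ℂ) (t : ℝ)
    (h : ∀ p, HasDerivAt (f p) (f' p) t) :
    HasDerivAt (fun t => (T.map fun p => f p t).sum) ((T.map f').sum) t := by
  induction T using Multiset.induction_on with
  | empty => simpa using hasDerivAt_const t (0:ℂ)
  | cons a T ih =>
    simp only [Multiset.map_cons, Multiset.sum_cons]
    exact (h a).add ih

/-! ### the factor of the created particles -/

/-- the polynomial -/
def pl (A : Multiset X) (w v : X → ℂ) (z : ℂ) : ℂ := (A.map fun x => w x + z * v x).prod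

theorem pl_zero (A : Multiset X) (w v : X → ℂ) : pl A w v 0 = (A.map w).prod := by
  unfold pl
  congr 2
  funext x
  simp

theorem pl_diff (A : Multiset X) (w v : X → ℂ) : Differentiable ℂ (pl A w v) := by
  unfold pl
  induction A using Multiset.induction_on with
  | empty => simp
  | cons a A ih =>
    simp only [Multiset.map_cons, Multiset.prod_cons]
    exact Differentiable.mul (by fun_prop) ih

/-- the derivative at `0` -/
def dP (A : Multiset X) (w v : X → ℂ) : ℂ := deriv (pl A w v) 0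

theorem pl_hasDeriv (A : Multiset X) (w v : X → ℂ) : HasDerivAt (pl A w v) (dP A w v) 0 :=
  (pl_diff A w v 0).hasDerivAt

theorem pl_hasDeriv_real (A : Multiset X) (w v : X → ℂ) :
    HasDerivAt (fun t : ℝ => pl A w v t) (dP A w v) 0 := by
  have h := pl_hasDeriv A w v
  rw [show (0:ℂ) = ((0:ℝ):ℂ) by simp] at h
  exact h.comp_ofReal

theorem dP_I (A : Multiset X) (w v : X → ℂ) :
    dP A w (fun x => Complex.I * v x) = Complex.I * dP A w v := by
  have e : pl A w (fun x => Complex.I * v x) = fun z => pl A w v (Complex.I * z) := by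
    funext z
    unfold pl
    congr 2
    funext x
    ring
  have h1 : HasDerivAt (fun z : ℂ => Complex.I * z) (Complex.I * 1) 0 :=
    (hasDerivAt_id (0:ℂ)).const_mul Complex.I
  have h2 : HasDerivAt (pl A w v) (dP A w v) (Complex.I * 0) := by
    rw [mul_zero]; exact pl_hasDeriv A w v
  have h3 := h2.comp (0:ℂ) h1
  have h4 : HasDerivAt (pl A w (fun x => Complex.I * v x)) (dP A w v * (Complex.I * 1)) 0 := by
    rw [e]; exact h3
  unfold dP at *
  rw [h4.deriv]
  ring

theorem dP_bound (A : Multiset X) (w v : X → ℂ) (K V : ℝ) (hV : 0 ≤ V) (hK : 0 ≤ K)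
    (hw : ∀ x, ‖w x‖ ≤ K) (hv : ∀ x, ‖v x‖ ≤ V) : ‖dP A w v‖ ≤ (K + V) ^ Multiset.card A := by
  have h := Complex.norm_deriv_le_of_forall_mem_sphere_norm_le (c := (0:ℂ)) (R := 1)
    (C := (K + V) ^ Multiset.card A) (f := pl A w v) one_pos
    ((pl_diff A w v).diffContOnCl) (by
      intro z hz
      have hz1 : ‖z‖ = 1 := by simpa using hz
      unfold pl
      refine norm_prod (fun x => w x + z * v x) (K + V) (by positivity) (fun x => ?_) A
      refine (norm_add_le _ _).trans (add_le_add (hw x) ?_)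
      rw [norm_mul, hz1, one_mul]
      exact hv x)
  simpa [dP] using h

/-! ### shifts -/

variable [MeasurableSpace X] (ν : Measure X) [IsFiniteMeasure ν]

omit [IsFiniteMeasure ν] in
theorem eb_shift [IsFiniteMeasure ν] {F : Multiset X → ℂ} (hF : EB F) (B : Multiset X) :
    EB fun S => F (B + S) := by
  induction B using Multiset.induction_on generalizing F with
  | empty => simpa using hF
  | cons a B ih =>
    have h := ih ((hEBC X ν F F hF hF).1 a)
    have e : (fun S => F (a ::ₘ B + S)) = fun S => an a F (B + S) := by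
      funext S
      unfold an
      rw [Multiset.cons_add]
    rw [e]
    exact h

/-! ### the factor of the annihilated particles -/

omit [IsFiniteMeasure ν] in
theorem QQ_bound [IsFiniteMeasure ν] {F : Multiset X → ℂ} {C c K : ℝ} (hC : 0 ≤ C) (hc : 1 ≤ c)
    (hF : ∀ S, ‖F S‖ ≤ C * c ^ Multiset.card S) (hK : 0 ≤ K) {g : X → ℂ}
    (hg : ∀ x, ‖g x‖ ≤ K) (B : Multiset X) :
    ‖QQ ν g F B‖ ≤ (C * ∫ γ : Cf X, 1 * (K * c) ^ Multiset.card (ms γ) ∂(lam ν)) *
      c ^ Multiset.card B := by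
  have hc0 : 0 ≤ c := by linarith
  have hi := int_card ν 1 (K * c) zero_le_one (by positivity)
  have hi2 := hi.const_mul (C * c ^ Multiset.card B)
  have e : (C * ∫ γ : Cf X, 1 * (K * c) ^ Multiset.card (ms γ) ∂(lam ν)) * c ^ Multiset.card B =
      ∫ γ : Cf X, (C * c ^ Multiset.card B) * (1 * (K * c) ^ Multiset.card (ms γ)) ∂(lam ν) := by
    rw [integral_const_mul (C * c ^ Multiset.card B)]; ring
  rw [e]
  unfold QQ
  refine norm_integral_le_of_norm_le hi2 (Eventually.of_forall fun γ => ?_)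
  rw [norm_mul]
  have h1 := norm_prod g K hK hg (ms γ)
  have h2 := hF (B + ms γ)
  rw [Multiset.card_add, pow_add] at h2
  calc ‖((ms γ).map g).prod‖ * ‖F (B + ms γ)‖ ≤ K ^ Multiset.card (ms γ) *
        (C * (c ^ Multiset.card B * c ^ Multiset.card (ms γ))) :=
        mul_le_mul h1 h2 (norm_nonneg _) (by positivity)
    _ = _ := by rw [mul_pow]; ring

theorem QQ_add {F : Multiset X → ℂ} (hF : EB F) {g h : X → ℂ} {K : ℝ} (hK : 0 ≤ K)
    (mg : Measurable g) (mh : Measurable h) (hg : ∀ x, ‖g x‖ ≤ K) (hh : ∀ x, ‖h x‖ ≤ K) (B : Multiset X) (z : ℂ) :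
    QQ ν (fun x => g x + z * h x) F B =
      ∫ γ, z ^ Multiset.card (ms γ) * (((ms γ).map h).prod * QQ ν g F (B + ms γ)) ∂(lam ν) := by
  have hFB := eb_shift ν hF B
  obtain ⟨C, c, hC, hc, hb⟩ := hF.bdd
  have hc0 : 0 ≤ c := by linarith
  let H : Multiset X → Multiset X → ℂ := fun A D =>
    (A.map fun x => z * h x).prod * (D.map g).prod * F (B + (A + D))
  have mH : Measurable (fun p : Cf X × Cf X => H (ms p.1) (ms p.2)) := by
    have h1 : Measurable fun γ : Cf X => ((ms γ).map fun x => z * h x).prod := by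
      have := (hMS X).2.2.1 Unit (fun _ x => z * h x) (by fun_prop)
      exact this.comp (measurable_prodMk_left (x := ()))
    have h2 : Measurable fun γ : Cf X => ((ms γ).map g).prod := by
      have := (hMS X).2.2.1 Unit (fun _ => g) (mg.comp measurable_snd)
      exact this.comp (measurable_prodMk_left (x := ()))
    have h3 : Measurable fun p : Cf X × Cf X => F (B + (ms p.1 + ms p.2)) :=
      (hEBC X ν _ _ hFB hFB).2.2.2.2.2.2.1
    exact ((h1.comp measurable_fst).mul (h2.comp measurable_snd)).mul h3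
  have bH : ∃ C c : ℝ, 0 ≤ C ∧ 0 ≤ c ∧
      ∀ A D, ‖H A D‖ ≤ C * c ^ (Multiset.card A + Multiset.card D) := by
    refine ⟨C * c ^ Multiset.card B, (‖z‖ * K + K) * c, by positivity, by positivity, ?_⟩
    intro A D
    have h1 : ‖(A.map fun x => z * h x).prod‖ ≤ (‖z‖ * K + K) ^ Multiset.card A := by
      refine norm_prod _ _ (by positivity) (fun x => ?_) A
      rw [norm_mul]
      have := mul_le_mul_of_nonneg_left (hh x) (norm_nonneg z)
      linarith
    have h2 : ‖(D.map g).prod‖ ≤ (‖z‖ * K + K) ^ Multiset.card D := by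
      refine norm_prod _ _ (by positivity) (fun x => ?_) D
      have := mul_nonneg (norm_nonneg z) hK
      linarith [hg x]
    have h3 := hb (B + (A + D))
    rw [Multiset.card_add, Multiset.card_add, pow_add] at h3
    change ‖(A.map fun x => z * h x).prod * (D.map g).prod * F (B + (A + D))‖ ≤ _
    rw [norm_mul, norm_mul]
    calc _ ≤ ((‖z‖ * K + K) ^ Multiset.card A * (‖z‖ * K + K) ^ Multiset.card D) *
          (C * (c ^ Multiset.card B * c ^ (Multiset.card A + Multiset.card D))) := by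
          refine mul_le_mul (mul_le_mul h1 h2 (norm_nonneg _) (by positivity)) h3
            (norm_nonneg _) (by positivity)
      _ = _ := by rw [mul_pow, pow_add (‖z‖ * K + K)]; ring
  have key := ((hAD X ν).2 H mH bH).2.2
  have e1 : (fun γ : Cf X => ((ms γ).map fun x => g x + z * h x).prod * F (B + ms γ)) =
      fun γ => ((ms γ).antidiagonal.map fun s => H s.1 s.2).sum := by
    funext γ
    have h1 : ((ms γ).map fun x => g x + z * h x).prod =
        ((ms γ).antidiagonal.map fun p => (p.1.map fun x => z * h x).prod *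
          (p.2.map g).prod).sum := by
      rw [← Multiset.prod_map_add]
      congr 2
      funext x
      ring
    rw [h1, ← Multiset.sum_map_mul_right]
    congr 1
    apply Multiset.map_congr rfl
    intro p hp
    rw [Multiset.mem_antidiagonal] at hp
    change _ = (p.1.map fun x => z * h x).prod * (p.2.map g).prod * F (B + (p.1 + p.2))
    rw [hp]
  unfold QQ at *
  rw [e1, key]
  refine integral_congr_ae (Eventually.of_forall fun γ => ?_)
  change (∫ γ', ((ms γ).map fun x => z * h x).prod * ((ms γ').map g).prod *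
    F (B + (ms γ + ms γ')) ∂(lam ν)) = _
  have e2 : ((ms γ).map fun x => z * h x).prod =
      z ^ Multiset.card (ms γ) * ((ms γ).map h).prod := by
    rw [Multiset.prod_map_mul, Multiset.map_const', Multiset.prod_replicate]
  rw [e2]
  simp only [mul_assoc, ← add_assoc]
  rw [integral_const_mul, integral_const_mul]

omit [IsFiniteMeasure ν] in
/-- integration over the configurations with one point -/
theorem int_one (φ : Cf X → ℂ) (hφ : Integrable φ (lam ν)) (mφ : Measurable φ)
    (h : ∀ γ, Multiset.card (ms γ) ≠ 1 → φ γ = 0) :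
    ∫ γ, φ γ ∂(lam ν) = ∫ x, φ ⟨1, fun _ => x⟩ ∂ν := by
  unfold lam at hφ ⊢
  rw [integral_sum_measure hφ, tsum_eq_single 1]
  · rw [integral_smul_measure, integral_map (meas_mk 1).aemeasurable mφ.aestronglyMeasurable]
    have h1 := (measurePreserving_funUnique ν (Fin 1)).symm
    have h2 := h1.integral_comp (MeasurableEquiv.funUnique (Fin 1) X).symm.measurableEmbedding
      (fun x : Fin 1 → X => φ ⟨1, x⟩)
    have h3 : (fun x : X => φ ⟨1, (MeasurableEquiv.funUnique (Fin 1) X).symm x⟩) =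
        fun x => φ ⟨1, fun _ => x⟩ := rfl
    rw [h3] at h2
    rw [h2]
    simp only [Nat.factorial_one, Nat.cast_one, inv_one, ENNReal.toReal_one, one_smul]
    exact congrArg (fun inst : Fintype (Fin 1) => ∫ x : Fin 1 → X, φ ⟨1, x⟩
      ∂(@Measure.pi (Fin 1) (fun _ => X) inst _ fun _ => ν)) (Subsingleton.elim _ _)
  · intro N hN
    rw [integral_smul_measure, integral_map (meas_mk N).aemeasurable mφ.aestronglyMeasurable]
    have h1 : (fun x : Fin N → X => φ ⟨N, x⟩) = fun _ => 0 := by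
      funext x
      apply h
      rw [card_ms]
      exact hN
    rw [h1]
    simp

theorem QQ_deriv (hW : S_W1) {F : Multiset X → ℂ} (hF : EB F) {g h : X → ℂ} {K : ℝ} (hK : 0 ≤ K)
    (mg : Measurable g) (mh : Measurable h) (hg : ∀ x, ‖g x‖ ≤ K) (hh : ∀ x, ‖h x‖ ≤ K)
    (B : Multiset X) :
    HasDerivAt (fun z : ℂ => QQ ν (fun x => g x + z * h x) F B)
      (∫ x, h x * QQ ν g F (x ::ₘ B) ∂ν) 0 := by
  have hG : EB (QQ ν g F) := by
    obtain ⟨_, _, _, _, hQ⟩ := (hW X ν).1 F hF K
    exact (hQ g mg hg).2.1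
  obtain ⟨C, c, hC, hc, hb⟩ := hG.bdd
  have hc0 : 0 ≤ c := by linarith
  have hGB := eb_shift ν hG B
  set φ : Cf X → ℂ := fun γ => ((ms γ).map h).prod * QQ ν g F (B + ms γ) with hφ
  have mφ : Measurable φ := by
    have h1 : Measurable fun γ : Cf X => ((ms γ).map h).prod := by
      have := (hMS X).2.2.1 Unit (fun _ => h) (mh.comp measurable_snd)
      exact this.comp (measurable_prodMk_left (x := ()))
    exact h1.mul hGB.meas
  have bφ : ∀ γ, ‖φ γ‖ ≤ (C * c ^ Multiset.card B) * (K * c) ^ Multiset.card (ms γ) := by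
    intro γ
    rw [hφ]
    dsimp only
    rw [norm_mul]
    have h1 := norm_prod h K hK hh (ms γ)
    have h2 := hb (B + ms γ)
    rw [Multiset.card_add, pow_add] at h2
    calc _ ≤ K ^ Multiset.card (ms γ) *
          (C * (c ^ Multiset.card B * c ^ Multiset.card (ms γ))) :=
          mul_le_mul h1 h2 (norm_nonneg _) (by positivity)
      _ = _ := by rw [mul_pow]; ring
  have iφ : Integrable φ (lam ν) :=
    (int_card ν (C * c ^ Multiset.card B) (K * c) (by positivity) (by positivity)).mono'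
      mφ.aestronglyMeasurable (Eventually.of_forall bφ)
  have e : (fun z : ℂ => QQ ν (fun x => g x + z * h x) F B) =
      fun z : ℂ => ∫ γ, z ^ Multiset.card (ms γ) * φ γ ∂(lam ν) := by
    funext z
    exact QQ_add ν hF hK mg mh hg hh B z
  rw [e]
  have mF' : Measurable fun γ : Cf X =>
      ((Multiset.card (ms γ) : ℂ) * (0:ℂ) ^ (Multiset.card (ms γ) - 1)) * φ γ :=
    (meas_card fun k => (k : ℂ) * (0:ℂ) ^ (k - 1)).mul mφ
  have key := hasDerivAt_integral_of_dominated_loc_of_deriv_le (μ := lam ν) (x₀ := (0:ℂ))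
    (s := Metric.ball (0:ℂ) 1)
    (F := fun z γ => z ^ Multiset.card (ms γ) * φ γ)
    (F' := fun z γ => ((Multiset.card (ms γ) : ℂ) * z ^ (Multiset.card (ms γ) - 1)) * φ γ)
    (bound := fun γ => (C * c ^ Multiset.card B) * (2 * (K * c)) ^ Multiset.card (ms γ))
    (Metric.ball_mem_nhds _ one_pos)
    (Eventually.of_forall fun z =>
      ((meas_card fun k => z ^ k).mul mφ).aestronglyMeasurable)
    ?_ mF'.aestronglyMeasurable ?_
    (int_card ν (C * c ^ Multiset.card B) (2 * (K * c)) (by positivity) (by positivity)) ?_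
  · have h1 := key.2
    rw [int_one ν _ key.1 mF'] at h1
    · have e2 : (fun x : X => ((Multiset.card (ms (⟨1, fun _ => x⟩ : Cf X)) : ℂ) *
          (0:ℂ) ^ (Multiset.card (ms (⟨1, fun _ => x⟩ : Cf X)) - 1)) *
            φ (⟨1, fun _ => x⟩ : Cf X)) = fun x => h x * QQ ν g F (x ::ₘ B) := by
        funext x
        rw [card_ms]
        have h2 : ms (⟨1, fun _ => x⟩ : Cf X) = {x} := by
          unfold ms
          simp
        rw [hφ]
        dsimp only
        rw [h2]
        simp only [Nat.cast_one, one_mul, Nat.sub_self, pow_zero, Multiset.map_singleton,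
          Multiset.prod_singleton]
        rw [add_comm, Multiset.singleton_add]
      rw [e2] at h1
      exact h1
    · intro γ hγ
      have h2 : ((Multiset.card (ms γ) : ℂ) * (0:ℂ) ^ (Multiset.card (ms γ) - 1)) = 0 := by
        rcases Nat.eq_zero_or_pos (Multiset.card (ms γ)) with h3 | h3
        · rw [h3]; simp
        · rw [zero_pow (by omega), mul_zero]
      rw [h2, zero_mul]
  · refine iφ.mono ((meas_card fun k => (0:ℂ) ^ k).mul mφ).aestronglyMeasurable
      (Eventually.of_forall fun γ => ?_)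
    rw [norm_mul, norm_pow, norm_zero]
    have h1 : (0:ℝ) ^ Multiset.card (ms γ) ≤ 1 := pow_le_one₀ le_rfl zero_le_one
    have := mul_le_mul_of_nonneg_right h1 (norm_nonneg (φ γ))
    rwa [one_mul] at this
  · refine Eventually.of_forall fun γ z hz => ?_
    have hz1 : ‖z‖ ≤ 1 := by
      have := mem_ball_zero_iff.1 hz
      exact this.le
    rw [norm_mul, norm_mul, norm_pow, Complex.norm_natCast]
    have h1 : ‖z‖ ^ (Multiset.card (ms γ) - 1) ≤ 1 := pow_le_one₀ (norm_nonneg _) hz1
    have h2 : (Multiset.card (ms γ) : ℝ) ≤ 2 ^ Multiset.card (ms γ) := by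
      exact_mod_cast (Nat.lt_two_pow_self).le
    calc (Multiset.card (ms γ) : ℝ) * ‖z‖ ^ (Multiset.card (ms γ) - 1) * ‖φ γ‖
        ≤ (2 ^ Multiset.card (ms γ) * 1) *
          ((C * c ^ Multiset.card B) * (K * c) ^ Multiset.card (ms γ)) := by
          refine mul_le_mul (mul_le_mul h2 h1 (by positivity) (by positivity)) (bφ γ)
            (norm_nonneg _) (by positivity)
      _ = _ := by rw [mul_pow 2]; ring
  · refine Eventually.of_forall fun γ z _ => ?_
    exact (hasDerivAt_pow _ z).mul_const _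

/-! ### the derivative of the Weyl operators -/

/-- `∫ ‖w + τ v‖²` -/
theorem int_sq {w v : X → ℂ} {K : ℝ} (mw : Measurable w) (mv : Measurable v)
    (hw : ∀ x, ‖w x‖ ≤ K) (hv : ∀ x, ‖v x‖ ≤ K) (τ : ℝ) :
    ∫ x, ‖w x + τ * v x‖ ^ 2 ∂ν = ∫ x, ‖w x‖ ^ 2 ∂ν +
      τ * (2 * ∫ x, ((starRingEnd ℂ) (v x) * w x).re ∂ν) + τ ^ 2 * ∫ x, ‖v x‖ ^ 2 ∂ν := by
  have i1 : Integrable (fun x => ‖w x‖ ^ 2) ν := by
    refine Integrable.of_bound (mw.norm.pow_const 2).aestronglyMeasurable (K ^ 2)
      (Eventually.of_forall fun x => ?_)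
    rw [Real.norm_eq_abs, abs_of_nonneg (by positivity)]
    exact pow_le_pow_left₀ (norm_nonneg _) (hw x) 2
  have i2 : Integrable (fun x => ‖v x‖ ^ 2) ν := by
    refine Integrable.of_bound (mv.norm.pow_const 2).aestronglyMeasurable (K ^ 2)
      (Eventually.of_forall fun x => ?_)
    rw [Real.norm_eq_abs, abs_of_nonneg (by positivity)]
    exact pow_le_pow_left₀ (norm_nonneg _) (hv x) 2
  have i3 : Integrable (fun x => ((starRingEnd ℂ) (v x) * w x).re) ν := by
    refine Integrable.of_bound (by fun_prop) (K * K) (Eventually.of_forall fun x => ?_)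
    rw [Real.norm_eq_abs]
    refine (Complex.abs_re_le_norm _).trans ?_
    rw [norm_mul, RCLike.norm_conj]
    exact mul_le_mul (hv x) (hw x) (norm_nonneg _) ((norm_nonneg _).trans (hv x))
  have e : ∀ x, ‖w x + τ * v x‖ ^ 2 = ‖w x‖ ^ 2 +
      τ * (2 * ((starRingEnd ℂ) (v x) * w x).re) + τ ^ 2 * ‖v x‖ ^ 2 := by
    intro x
    rw [Complex.sq_norm, Complex.sq_norm, Complex.sq_norm, Complex.normSq_apply,
      Complex.normSq_apply, Complex.normSq_apply]
    simp only [Complex.add_re, Complex.add_im, Complex.mul_re, Complex.mul_im, Complex.conj_re,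
      Complex.conj_im, Complex.ofReal_re, Complex.ofReal_im]
    ring
  simp_rw [e]
  have i4 : Integrable (fun x => ‖w x‖ ^ 2 +
      τ * (2 * ((starRingEnd ℂ) (v x) * w x).re)) ν := i1.add ((i3.const_mul 2).const_mul τ)
  rw [integral_add i4 (i2.const_mul (τ ^ 2)), integral_add i1 ((i3.const_mul 2).const_mul τ),
    integral_const_mul, integral_const_mul, integral_const_mul]

/-- the derivative in the direction `v` -/
def GG (w v : X → ℂ) (F : Multiset X → ℂ) (S : Multiset X) : ℂ :=
  -((∫ x, ((starRingEnd ℂ) (v x) * w x).re ∂ν : ℝ) : ℂ) * DD ν w F S +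
    Complex.exp (-((∫ x, ‖w x‖ ^ 2 ∂ν : ℝ) : ℂ) / 2) *
      (S.antidiagonal.map fun p =>
        dP p.1 w v * QQ ν (fun x => -(starRingEnd ℂ) (w x)) F p.2 +
          (p.1.map w).prod *
            ∫ x, (-(starRingEnd ℂ) (v x)) *
              QQ ν (fun x => -(starRingEnd ℂ) (w x)) F (x ::ₘ p.2) ∂ν).sum

theorem DD_deriv (hW : S_W1) {F : Multiset X → ℂ} (hF : EB F) {w v : X → ℂ} {K : ℝ} (hK : 0 ≤ K)
    (mw : Measurable w) (mv : Measurable v)
    (hw : ∀ x, ‖w x‖ ≤ K) (hv : ∀ x, ‖v x‖ ≤ K) (S : Multiset X) :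
    HasDerivAt (fun τ : ℝ => DD ν (fun x => w x + τ * v x) F S) (GG ν w v F S) 0 := by
  -- the exponential factor
  have h1 : HasDerivAt (fun τ : ℝ =>
      Complex.exp (-((∫ x, ‖w x + τ * v x‖ ^ 2 ∂ν : ℝ) : ℂ) / 2))
      (-((∫ x, ((starRingEnd ℂ) (v x) * w x).re ∂ν : ℝ) : ℂ) *
        Complex.exp (-((∫ x, ‖w x‖ ^ 2 ∂ν : ℝ) : ℂ) / 2)) 0 := by
    simp_rw [int_sq ν mw mv hw hv]
    have h2 : HasDerivAt (fun τ : ℝ => ∫ x, ‖w x‖ ^ 2 ∂ν +
        τ * (2 * ∫ x, ((starRingEnd ℂ) (v x) * w x).re ∂ν) + τ ^ 2 * ∫ x, ‖v x‖ ^ 2 ∂ν)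
        (2 * ∫ x, ((starRingEnd ℂ) (v x) * w x).re ∂ν) 0 := by
      have a1 := (hasDerivAt_id (0:ℝ)).mul_const (2 * ∫ x, ((starRingEnd ℂ) (v x) * w x).re ∂ν)
      have a2 := (hasDerivAt_pow 2 (0:ℝ)).mul_const (∫ x, ‖v x‖ ^ 2 ∂ν)
      have a3 := (a1.const_add (∫ x, ‖w x‖ ^ 2 ∂ν)).add a2
      refine a3.congr_deriv ?_
      simp
    have h3 := h2.ofReal_comp
    have h4 := (h3.neg.div_const 2).cexp
    refine h4.congr_deriv ?_
    simp
    ring
  have hP : ∀ p : Multiset X × Multiset X, HasDerivAt (fun τ : ℝ =>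
      (p.1.map fun x => w x + τ * v x).prod *
        QQ ν (fun x => -(starRingEnd ℂ) (w x + τ * v x)) F p.2)
      (dP p.1 w v * QQ ν (fun x => -(starRingEnd ℂ) (w x)) F p.2 +
          (p.1.map w).prod *
            ∫ x, (-(starRingEnd ℂ) (v x)) *
              QQ ν (fun x => -(starRingEnd ℂ) (w x)) F (x ::ₘ p.2) ∂ν) 0 := by
    intro p
    have b1 := pl_hasDeriv_real p.1 w v
    have b2 := QQ_deriv ν hW hF hK (g := fun x => -(starRingEnd ℂ) (w x))
      (h := fun x => -(starRingEnd ℂ) (v x)) (by fun_prop) (by fun_prop)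
      (fun x => by rw [norm_neg, RCLike.norm_conj]; exact hw x)
      (fun x => by rw [norm_neg, RCLike.norm_conj]; exact hv x) p.2
    rw [show (0:ℂ) = ((0:ℝ):ℂ) by simp] at b2
    have b3 := b1.mul b2.comp_ofReal
    have e1 : (fun τ : ℝ => (p.1.map fun x => w x + τ * v x).prod *
        QQ ν (fun x => -(starRingEnd ℂ) (w x + τ * v x)) F p.2) =
        fun τ : ℝ => pl p.1 w v τ *
          QQ ν (fun x => -(starRingEnd ℂ) (w x) + τ * -(starRingEnd ℂ) (v x)) F p.2 := by
      funext τ
      unfold pl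
      congr 2
      funext x
      rw [map_add, map_mul, Complex.conj_ofReal]
      ring
    rw [e1]
    refine b3.congr_deriv ?_
    simp only [Complex.ofReal_zero, zero_mul, add_zero]
    rw [pl_zero]
  have h5 := h1.mul (hasDeriv_sum S.antidiagonal _ _ 0 hP)
  refine h5.congr_deriv ?_
  unfold GG DD PP
  simp only [Complex.ofReal_zero, zero_mul, add_zero]
  ring

/-! ### the final formula -/

omit [MeasurableSpace X] in
theorem exists_ms (B : Multiset X) : ∃ γ : Cf X, ms γ = B := by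
  obtain ⟨l, rfl⟩ := Quotient.exists_rep B
  refine ⟨⟨l.length, l.get⟩, ?_⟩
  unfold ms
  simp

theorem int_app {G : Multiset X → ℂ} (hG : EB G) {f : X → ℂ} {K : ℝ} (mf : Measurable f)
    (hf : ∀ x, ‖f x‖ ≤ K) (B : Multiset X) : Integrable (fun x => f x * G (x ::ₘ B)) ν := by
  obtain ⟨γ, rfl⟩ := exists_ms B
  have h := (hEBC X ν G G hG hG)
  have h1 : Measurable fun x : X => G (x ::ₘ ms γ) := h.2.2.2.2.1.comp measurable_prodMk_right
  obtain ⟨C, c, hC, hc, hb⟩ := h.2.2.2.2.2.2.2.1
  have hc0 : 0 ≤ c := by linarith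
  refine Integrable.of_bound (mf.mul h1).aestronglyMeasurable
    (K * (C * c ^ Multiset.card (ms γ))) (Eventually.of_forall fun x => ?_)
  rw [norm_mul]
  exact mul_le_mul (hf x) (hb x _) (norm_nonneg _) ((norm_nonneg _).trans (hf x))

omit [IsFiniteMeasure ν] in
theorem int_msum {α : Type} (T : Multiset α) (f : α → X → ℂ) (h : ∀ p, Integrable (f p) ν) :
    Integrable (fun x => (T.map fun p => f p x).sum) ν ∧
      ∫ x, (T.map fun p => f p x).sum ∂ν = (T.map fun p => ∫ x, f p x ∂ν).sum := by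
  induction T using Multiset.induction_on with
  | empty => simp
  | cons a T ih =>
    simp only [Multiset.map_cons, Multiset.sum_cons]
    exact ⟨(h a).add ih.1, by rw [integral_add (h a) ih.1, ih.2]⟩

theorem ag_DD (hW : S_W1) {F : Multiset X → ℂ} (hF : EB F) {w : X → ℂ} {u : X → ℝ} {K : ℝ}
    (mw : Measurable w) (mu : Measurable u)
    (hw : ∀ x, ‖w x‖ ≤ K) (hu : ∀ x, |u x| ≤ 1) (S : Multiset X) :
    ag ν u (DD ν w F) S = Complex.exp (-((∫ x, ‖w x‖ ^ 2 ∂ν : ℝ) : ℂ) / 2) *
      (S.antidiagonal.map fun p => (p.1.map w).prod *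
        ∫ x, (u x : ℂ) * QQ ν (fun x => -(starRingEnd ℂ) (w x)) F (x ::ₘ p.2) ∂ν).sum +
      (∫ x, (u x : ℂ) * w x ∂ν) * DD ν w F S := by
  have hQ : EB (QQ ν (fun x => -(starRingEnd ℂ) (w x)) F) := by
    obtain ⟨_, _, _, _, hQ⟩ := (hW X ν).1 F hF K
    exact (hQ _ (by fun_prop) (fun x => by rw [norm_neg, RCLike.norm_conj]; exact hw x)).2.1
  set Q := QQ ν (fun x => -(starRingEnd ℂ) (w x)) F with hQd
  have mu' : Measurable fun x => (u x : ℂ) := Complex.measurable_ofReal.comp mu
  have hu' : ∀ x, ‖(u x : ℂ)‖ ≤ 1 := fun x => by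
    rw [Complex.norm_real, Real.norm_eq_abs]; exact hu x
  have iuw : Integrable (fun x => (u x : ℂ) * w x) ν := by
    refine Integrable.of_bound (mu'.mul mw).aestronglyMeasurable (1 * K)
      (Eventually.of_forall fun x => ?_)
    rw [norm_mul]
    exact mul_le_mul (hu' x) (hw x) (norm_nonneg _) zero_le_one
  have e1 : ∀ x, (u x : ℂ) * DD ν w F (x ::ₘ S) =
      Complex.exp (-((∫ x, ‖w x‖ ^ 2 ∂ν : ℝ) : ℂ) / 2) *
        ((S.antidiagonal.map fun p => (p.1.map w).prod * ((u x : ℂ) * Q (x ::ₘ p.2))).sum +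
          (S.antidiagonal.map fun p => (p.1.map w).prod * (((u x : ℂ) * w x) * Q p.2)).sum) := by
    intro x
    unfold DD PP
    rw [← hQd, Multiset.antidiagonal_cons, Multiset.map_add, Multiset.sum_add, Multiset.map_map,
      Multiset.map_map]
    have e2 : ∀ c : ℂ, ∀ f : Multiset X × Multiset X → ℂ,
        c * (S.antidiagonal.map f).sum = (S.antidiagonal.map fun p => c * f p).sum :=
      fun c f => (Multiset.sum_map_mul_left).symm
    rw [mul_left_comm, mul_add, e2, e2]
    congr 3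
    · apply Multiset.map_congr rfl
      intro p _
      simp only [Function.comp_apply, Prod.map, id]
      ring
    · apply Multiset.map_congr rfl
      intro p _
      simp only [Function.comp_apply, Prod.map, id, Multiset.map_cons, Multiset.prod_cons]
      ring
  unfold ag
  simp_rw [e1]
  have j1 := int_msum ν S.antidiagonal
    (fun p x => (p.1.map w).prod * ((u x : ℂ) * Q (x ::ₘ p.2)))
    (fun p => (int_app ν hQ mu' hu' p.2).const_mul _)
  have j2 := int_msum ν S.antidiagonal
    (fun p x => (p.1.map w).prod * (((u x : ℂ) * w x) * Q p.2))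
    (fun p => (iuw.mul_const _).const_mul _)
  rw [integral_const_mul, integral_add j1.1 j2.1, j1.2, j2.2, mul_add]
  congr 1
  · congr 2
    apply Multiset.map_congr rfl
    intro p _
    rw [integral_const_mul]
  · unfold DD PP
    rw [← hQd]
    have h3 : (S.antidiagonal.map fun p =>
        ∫ x, (p.1.map w).prod * (((u x : ℂ) * w x) * Q p.2) ∂ν).sum =
        (∫ x, (u x : ℂ) * w x ∂ν) *
          (S.antidiagonal.map fun p => (p.1.map w).prod * Q p.2).sum := by
      rw [← Multiset.sum_map_mul_left]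
      congr 1
      apply Multiset.map_congr rfl
      intro p _
      rw [integral_const_mul, integral_mul_const]
      ring
    rw [h3]
    ring

theorem GG_id (hW : S_W1) {F : Multiset X → ℂ} (hF : EB F) {w : X → ℂ} {u : X → ℝ} {K : ℝ}
    (κ : ℝ) (mw : Measurable w) (mu : Measurable u)
    (hw : ∀ x, ‖w x‖ ≤ K) (hu : ∀ x, |u x| ≤ 1) (S : Multiset X) :
    GG ν w (fun x => (κ : ℂ) * (u x : ℂ)) F S +
      Complex.I * GG ν w (fun x => Complex.I * ((κ : ℂ) * (u x : ℂ))) F S =
      κ * ((∫ x, (u x : ℂ) * w x ∂ν) * DD ν w F S - 2 * ag ν u (DD ν w F) S) := by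
  rw [ag_DD ν hW hF mw mu hw hu S]
  have mu' : Measurable fun x => (u x : ℂ) := Complex.measurable_ofReal.comp mu
  have hu' : ∀ x, ‖(u x : ℂ)‖ ≤ 1 := fun x => by
    rw [Complex.norm_real, Real.norm_eq_abs]; exact hu x
  have iuw : Integrable (fun x => (u x : ℂ) * w x) ν := by
    refine Integrable.of_bound (mu'.mul mw).aestronglyMeasurable (1 * K)
      (Eventually.of_forall fun x => ?_)
    rw [norm_mul]
    exact mul_le_mul (hu' x) (hw x) (norm_nonneg _) zero_le_one
  unfold GG
  set Q := QQ ν (fun x => -(starRingEnd ℂ) (w x)) F with hQd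
  set e := Complex.exp (-((∫ x, ‖w x‖ ^ 2 ∂ν : ℝ) : ℂ) / 2) with he
  set D := DD ν w F S with hD
  -- the first terms
  have f1 : ((∫ x, ((starRingEnd ℂ) ((κ : ℂ) * (u x : ℂ)) * w x).re ∂ν : ℝ) : ℂ) +
      Complex.I * ((∫ x, ((starRingEnd ℂ) (Complex.I * ((κ : ℂ) * (u x : ℂ))) * w x).re ∂ν : ℝ) :
        ℂ) = κ * ∫ x, (u x : ℂ) * w x ∂ν := by
    have h1 : (fun x => ((starRingEnd ℂ) ((κ : ℂ) * (u x : ℂ)) * w x).re) =
        fun x => RCLike.re ((κ : ℂ) * ((u x : ℂ) * w x)) := by
      funext x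
      rw [map_mul, Complex.conj_ofReal, Complex.conj_ofReal]
      simp [mul_assoc]
    have h2 : (fun x => ((starRingEnd ℂ) (Complex.I * ((κ : ℂ) * (u x : ℂ))) * w x).re) =
        fun x => RCLike.im ((κ : ℂ) * ((u x : ℂ) * w x)) := by
      funext x
      rw [map_mul, map_mul, Complex.conj_ofReal, Complex.conj_ofReal, Complex.conj_I]
      simp [mul_assoc]
    rw [h1, h2, ← integral_const_mul, ← integral_re_add_im (iuw.const_mul (κ : ℂ))]
    simp only [RCLike.I_to_complex]
    rw [mul_comm Complex.I]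
    rfl
  have f2 : ∀ B, ∫ x, (-(starRingEnd ℂ) ((κ : ℂ) * (u x : ℂ))) * Q (x ::ₘ B) ∂ν =
      -κ * ∫ x, (u x : ℂ) * Q (x ::ₘ B) ∂ν := by
    intro B
    rw [← integral_const_mul]
    congr 1
    funext x
    rw [map_mul, Complex.conj_ofReal, Complex.conj_ofReal]
    ring
  have f3 : ∀ B, ∫ x, (-(starRingEnd ℂ) (Complex.I * ((κ : ℂ) * (u x : ℂ)))) * Q (x ::ₘ B) ∂ν =
      (Complex.I * κ) * ∫ x, (u x : ℂ) * Q (x ::ₘ B) ∂ν := by
    intro B
    rw [← integral_const_mul]
    congr 1
    funext x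
    rw [map_mul, map_mul, Complex.conj_ofReal, Complex.conj_ofReal, Complex.conj_I]
    ring
  simp_rw [f2, f3, dP_I]
  have g1 : (S.antidiagonal.map fun p => dP p.1 w (fun x => (κ : ℂ) * (u x : ℂ)) * Q p.2 +
        (p.1.map w).prod * (-κ * ∫ x, (u x : ℂ) * Q (x ::ₘ p.2) ∂ν)).sum +
      Complex.I * (S.antidiagonal.map fun p =>
        Complex.I * dP p.1 w (fun x => (κ : ℂ) * (u x : ℂ)) * Q p.2 +
        (p.1.map w).prod * ((Complex.I * κ) * ∫ x, (u x : ℂ) * Q (x ::ₘ p.2) ∂ν)).sum =
      -2 * κ * (S.antidiagonal.map fun p => (p.1.map w).prod *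
        ∫ x, (u x : ℂ) * Q (x ::ₘ p.2) ∂ν).sum := by
    rw [← Multiset.sum_map_mul_left, ← Multiset.sum_map_mul_left, ← Multiset.sum_map_add]
    congr 1
    apply Multiset.map_congr rfl
    intro p _
    linear_combination (dP p.1 w (fun x => (κ : ℂ) * (u x : ℂ)) * Q p.2 +
      (p.1.map w).prod * κ * ∫ x, (u x : ℂ) * Q (x ::ₘ p.2) ∂ν) * Complex.I_mul_I
  linear_combination e * g1 - D * f1

theorem GG_bound (hW : S_W1) {F : Multiset X → ℂ} (hF : EB F) {K : ℝ} (hK : 0 ≤ K)
    (S : Multiset X) : ∃ C : ℝ, ∀ w v : X → ℂ, Measurable w → Measurable v →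
      (∀ x, ‖w x‖ ≤ K) → (∀ x, ‖v x‖ ≤ K) → ‖GG ν w v F S‖ ≤ C := by
  obtain ⟨C1, c1, hC1, hc1, hD⟩ := (hW X ν).1 F hF K
  obtain ⟨C, c, hC, hc, hb⟩ := hF.bdd
  have hc0 : 0 ≤ c := by linarith
  set D : ℝ := C * ∫ γ : Cf X, 1 * (K * c) ^ Multiset.card (ms γ) ∂(lam ν) with hDd
  have hD0 : 0 ≤ D := by
    refine mul_nonneg hC (integral_nonneg fun γ => ?_)
    positivity
  refine ⟨(K * K * ν.real Set.univ) * (C1 * c1 ^ Multiset.card S) +
    1 * (S.antidiagonal.map fun p => (K + K) ^ Multiset.card p.1 * (D * c ^ Multiset.card p.2) +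
      K ^ Multiset.card p.1 * ((K * (D * c ^ (Multiset.card p.2 + 1))) * ν.real Set.univ)).sum, ?_⟩
  intro w v mw mv hw hv
  have hQ : ∀ B, ‖QQ ν (fun x => -(starRingEnd ℂ) (w x)) F B‖ ≤ D * c ^ Multiset.card B :=
    fun B => QQ_bound ν hC hc hb hK (fun x => by rw [norm_neg, RCLike.norm_conj]; exact hw x) B
  unfold GG
  refine (norm_add_le _ _).trans (add_le_add ?_ ?_)
  · rw [norm_mul, norm_neg, Complex.norm_real]
    refine mul_le_mul ?_ ((hD w mw hw).2.2.2 S) (norm_nonneg _) (by positivity)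
    refine norm_integral_le_of_norm_le_const (Eventually.of_forall fun x => ?_)
    rw [Real.norm_eq_abs]
    refine (Complex.abs_re_le_norm _).trans ?_
    rw [norm_mul, RCLike.norm_conj]
    exact mul_le_mul (hv x) (hw x) (norm_nonneg _) hK
  · rw [norm_mul]
    refine mul_le_mul ?_ ?_ (norm_nonneg _) zero_le_one
    · rw [Complex.norm_exp]
      have h1 : 0 ≤ ∫ x, ‖w x‖ ^ 2 ∂ν := integral_nonneg fun x => by positivity
      rw [Real.exp_le_one_iff]
      have h2 : (-((∫ x, ‖w x‖ ^ 2 ∂ν : ℝ) : ℂ) / 2).re = -(∫ x, ‖w x‖ ^ 2 ∂ν) / 2 := by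
        have : (-((∫ x, ‖w x‖ ^ 2 ∂ν : ℝ) : ℂ) / 2) =
            ((-(∫ x, ‖w x‖ ^ 2 ∂ν) / 2 : ℝ) : ℂ) := by push_cast; ring
        rw [this, Complex.ofReal_re]
      rw [h2]
      linarith
    · refine norm_msum_le _ _ _ fun p => ?_
      refine (norm_add_le _ _).trans (add_le_add ?_ ?_)
      · rw [norm_mul]
        exact mul_le_mul (dP_bound p.1 w v K K hK hK hw hv) (hQ p.2) (norm_nonneg _)
          (by positivity)
      · rw [norm_mul]
        refine mul_le_mul (norm_prod w K hK hw p.1) ?_ (norm_nonneg _) (by positivity)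
        refine norm_integral_le_of_norm_le_const (Eventually.of_forall fun x => ?_)
        rw [norm_mul, norm_neg, RCLike.norm_conj]
        have h3 := hQ (x ::ₘ p.2)
        rw [Multiset.card_cons] at h3
        exact mul_le_mul (hv x) h3 (norm_nonneg _) hK

/-! ### the parameters -/

section par

variable {I : Type} [Fintype I] [DecidableEq I]

/-- the direction -/
def vj (u : I → X → ℝ) (κ : ℝ) (j : I × Bool) (x : X) : ℂ :=
  (κ : ℂ) * (if j.2 = true then Complex.I else 1) * (u j.1 x : ℂ)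

omit [MeasurableSpace X] in
theorem wv_upd (u : I → X → ℝ) (κ : ℝ) (s : I × Bool → ℝ) (j : I × Bool) (t : ℝ) (x : X) :
    wv u κ (Function.update s j t) x = wv u κ s x + ((t - s j : ℝ) : ℂ) * vj u κ j x := by
  have h : wv u κ (Function.update s j t) x - wv u κ s x =
      ((t - s j : ℝ) : ℂ) * vj u κ j x := by
    unfold wv
    rw [← Finset.sum_sub_distrib, Finset.sum_eq_single j.1]
    · obtain ⟨i, b⟩ := j
      cases b
      · have h1 : Function.update s (i, false) t (i, true) = s (i, true) :=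
          Function.update_of_ne (by simp) _ _
        rw [h1, Function.update_self]
        unfold vj
        push_cast
        simp
        ring
      · have h1 : Function.update s (i, true) t (i, false) = s (i, false) :=
          Function.update_of_ne (by simp) _ _
        rw [h1, Function.update_self]
        unfold vj
        push_cast
        simp
        ring
    · intro i _ hi
      have h1 : ∀ b, Function.update s j t (i, b) = s (i, b) := fun b =>
        Function.update_of_ne (fun h => hi (congrArg Prod.fst h)) _ _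
      rw [h1, h1, sub_self]
    · intro h
      exact absurd (Finset.mem_univ _) h
  rw [← h]
  ring

theorem wv_meas (u : I → X → ℝ) (mu : ∀ i, Measurable (u i)) (κ : ℝ)
    (φ : (I × Bool → ℝ) → I × Bool → ℝ) (mφ : Measurable φ) :
    Measurable fun q : (I × Bool → ℝ) × X => wv u κ (φ q.1) q.2 := by
  unfold wv
  refine Finset.measurable_sum _ fun i _ => ?_
  have h1 : ∀ b, Measurable fun q : (I × Bool → ℝ) × X => ((φ q.1 (i, b) : ℝ) : ℂ) := fun b =>
    Complex.measurable_ofReal.comp ((measurable_pi_apply (i, b)).comp (mφ.comp measurable_fst))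
  have h2 : Measurable fun q : (I × Bool → ℝ) × X => ((u i q.2 : ℝ) : ℂ) :=
    Complex.measurable_ofReal.comp ((mu i).comp measurable_snd)
  exact (((h1 false).add ((h1 true).const_mul Complex.I)).const_mul (κ : ℂ)).mul h2

omit [MeasurableSpace X] [DecidableEq I] in
theorem wv_bound (u : I → X → ℝ) (hu : ∀ i x, |u i x| ≤ 1) (κ : ℝ) (s : I × Bool → ℝ) (R : ℝ)
    (hs : ∀ j, |s j| ≤ R) (x : X) : ‖wv u κ s x‖ ≤ Fintype.card I * (|κ| * (R + R)) := by
  unfold wv
  refine ((_root_.norm_sum_le _ _).trans (Finset.sum_le_card_nsmul _ _ (|κ| * (R + R))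
    fun i _ => ?_)).trans (le_of_eq ?_)
  · rw [norm_mul, norm_mul, Complex.norm_real, Complex.norm_real, Real.norm_eq_abs,
      Real.norm_eq_abs]
    have h1 : ‖(s (i, false) : ℂ) + Complex.I * (s (i, true) : ℂ)‖ ≤ R + R := by
      refine (_root_.norm_add_le _ _).trans (add_le_add ?_ ?_)
      · rw [Complex.norm_real]; exact hs _
      · rw [norm_mul, Complex.norm_I, one_mul, Complex.norm_real]; exact hs _
    calc |κ| * ‖(s (i, false) : ℂ) + Complex.I * (s (i, true) : ℂ)‖ * |u i x| ≤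
          (|κ| * (R + R)) * 1 := by
          refine mul_le_mul (mul_le_mul_of_nonneg_left h1 (abs_nonneg _)) (hu i x)
            (abs_nonneg _) ?_
          exact mul_nonneg (abs_nonneg _) ((norm_nonneg _).trans h1)
      _ = _ := mul_one _
  · rw [Finset.card_univ, nsmul_eq_mul]

omit [MeasurableSpace X] [Fintype I] [DecidableEq I] in
theorem vj_bound (u : I → X → ℝ) (hu : ∀ i x, |u i x| ≤ 1) (κ : ℝ) (j : I × Bool) (x : X) :
    ‖vj u κ j x‖ ≤ |κ| := by
  unfold vj
  rw [norm_mul, norm_mul, Complex.norm_real, Complex.norm_real, Real.norm_eq_abs,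
    Real.norm_eq_abs]
  have h1 : ‖(if j.2 = true then Complex.I else 1 : ℂ)‖ = 1 := by
    split_ifs <;> simp
  rw [h1, mul_one]
  calc |κ| * |u j.1 x| ≤ |κ| * 1 := mul_le_mul_of_nonneg_left (hu _ _) (abs_nonneg _)
    _ = _ := mul_one _

end par


theorem sum_bound {J : Type} [Fintype J] (s : J → ℝ) : ∃ R : ℝ, ∀ j, |s j| ≤ R :=
  ⟨∑ j', |s j'|, fun j' => Finset.single_le_sum (f := fun j' => |s j'|)
    (fun i _ => abs_nonneg _) (Finset.mem_univ j')⟩

section fin

variable {I : Type} [Fintype I] [DecidableEq I]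

omit [Fintype I] [DecidableEq I] in
theorem vj_meas (u : I → X → ℝ) (mu : ∀ i, Measurable (u i)) (κ : ℝ) (j : I × Bool) :
    Measurable (vj u κ j) := by
  unfold vj
  exact (Complex.measurable_ofReal.comp (mu j.1)).const_mul _

theorem wv_meas1 (u : I → X → ℝ) (mu : ∀ i, Measurable (u i)) (κ : ℝ) (s : I × Bool → ℝ) :
    Measurable (wv u κ s) := by
  unfold wv
  exact Finset.measurable_sum _ fun i _ =>
    (Complex.measurable_ofReal.comp (mu i)).const_mul _

theorem der1 (hW : S_W1) (u : I → X → ℝ) (mu : ∀ i, Measurable (u i))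
    (hu : ∀ i x, |u i x| ≤ 1) (κ : ℝ) {F : Multiset X → ℂ} (hF : EB F) (S : Multiset X)
    (j : I × Bool) (s : I × Bool → ℝ) :
    HasDerivAt (fun t : ℝ => DD ν (wv u κ (Function.update s j t)) F S)
      (GG ν (wv u κ s) (vj u κ j) F S) (s j) := by
  obtain ⟨R, hR⟩ := sum_bound s
  have hK0 : 0 ≤ |κ| + |Fintype.card I * (|κ| * (R + R))| := by positivity
  have h1 := DD_deriv ν hW hF hK0 (wv_meas1 u mu κ s) (vj_meas u mu κ j)
    (fun x => (wv_bound u hu κ s R hR x).trans
      ((le_abs_self _).trans (le_add_of_nonneg_left (abs_nonneg _))))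
    (fun x => (vj_bound u hu κ j x).trans (le_add_of_nonneg_right (abs_nonneg _))) S
  have h2 : HasDerivAt (fun τ : ℝ => DD ν (fun x => wv u κ s x + τ * vj u κ j x) F S)
      (GG ν (wv u κ s) (vj u κ j) F S) (s j - s j) := by
    rw [sub_self]; exact h1
  have h3 := HasDerivAt.comp_sub_const (s j) (s j) h2
  refine h3.congr_of_eventuallyEq (Eventually.of_forall fun t => ?_)
  have e1 : wv u κ (Function.update s j t) =
      fun x => wv u κ s x + ((t - s j : ℝ) : ℂ) * vj u κ j x := by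
    funext x
    exact wv_upd u κ s j t x
  show DD ν (wv u κ (Function.update s j t)) F S = _
  rw [e1]

theorem der2 (hW : S_W1) (u : I → X → ℝ) (mu : ∀ i, Measurable (u i))
    (hu : ∀ i x, |u i x| ≤ 1) (κ : ℝ) {F : Multiset X → ℂ} (hF : EB F) (S : Multiset X)
    (j : I × Bool) : Measurable fun s => GG ν (wv u κ s) (vj u κ j) F S := by
  have hm : ∀ φ : (I × Bool → ℝ) → I × Bool → ℝ, Measurable φ →
      Measurable fun s => DD ν (wv u κ (φ s)) F S := by
    intro φ mφ
    obtain ⟨γ, rfl⟩ := exists_ms S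
    have h1 := (hW X ν).2 (I × Bool → ℝ) (fun s => wv u κ (φ s)) F (wv_meas u mu κ φ mφ) hF
    have h2 : Measurable fun s : I × Bool → ℝ => (s, γ) := measurable_prodMk_right
    have h3 := h1.comp h2
    exact h3
  have hup : ∀ c : ℝ, Measurable fun s : I × Bool → ℝ => Function.update s j (s j + c) := by
    intro c
    refine measurable_pi_lambda _ fun j' => ?_
    by_cases hj : j' = j
    · subst hj
      simp only [Function.update_self]
      have h1 : Measurable fun s : I × Bool → ℝ => s j' := measurable_pi_apply j'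
      exact h1.add_const c
    · simp only [Function.update_of_ne hj]
      exact measurable_pi_apply _
  have hq : ∀ n : ℕ, Measurable fun s : I × Bool → ℝ =>
      ((1 / ((n : ℝ) + 1))⁻¹ : ℝ) • (DD ν (wv u κ (Function.update s j
        (s j + 1 / ((n : ℝ) + 1)))) F S - DD ν (wv u κ (Function.update s j (s j + 0))) F S) := by
    intro n
    have a1 := hm _ (hup (1 / ((n : ℝ) + 1)))
    have a2 := hm _ (hup 0)
    exact (a1.sub a2).const_smul ((1 / ((n : ℝ) + 1))⁻¹ : ℝ)
  refine measurable_of_tendsto_metrizable hq ?_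
  rw [tendsto_pi_nhds]
  intro s
  have h1 := hasDerivAt_iff_tendsto_slope_zero.1 (der1 ν hW u mu hu κ hF S j s)
  have h2 : Tendsto (fun n : ℕ => 1 / ((n : ℝ) + 1)) atTop (𝓝[≠] 0) := by
    refine tendsto_nhdsWithin_iff.2 ⟨tendsto_one_div_add_atTop_nhds_zero_nat,
      Eventually.of_forall fun n => ?_⟩
    have : (0:ℝ) < 1 / ((n : ℝ) + 1) := by positivity
    exact this.ne'
  have h3 := h1.comp h2
  refine h3.congr fun n => ?_
  simp only [Function.comp_apply, add_zero]

theorem der3 (hW : S_W1) (u : I → X → ℝ) (mu : ∀ i, Measurable (u i))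
    (hu : ∀ i x, |u i x| ≤ 1) (κ : ℝ) {F : Multiset X → ℂ} (hF : EB F) (S : Multiset X)
    (R : ℝ) : ∃ C : ℝ, ∀ (j : I × Bool) (s : I × Bool → ℝ), (∀ j', |s j'| ≤ R) →
      ‖GG ν (wv u κ s) (vj u κ j) F S‖ ≤ C := by
  have hK0 : 0 ≤ |κ| + |Fintype.card I * (|κ| * (R + R))| := by positivity
  obtain ⟨C, hC⟩ := GG_bound ν hW hF hK0 S
  refine ⟨C, fun j s hs => hC _ _ (wv_meas1 u mu κ s) (vj_meas u mu κ j) (fun x => ?_)
    (fun x => ?_)⟩
  · exact (wv_bound u hu κ s R hs x).trans
      ((le_abs_self _).trans (le_add_of_nonneg_left (abs_nonneg _)))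
  · exact (vj_bound u hu κ j x).trans (le_add_of_nonneg_right (abs_nonneg _))

theorem der4 (hW : S_W1) (u : I → X → ℝ) (mu : ∀ i, Measurable (u i))
    (hu : ∀ i x, |u i x| ≤ 1) (κ : ℝ) {F : Multiset X → ℂ} (hF : EB F) (S : Multiset X)
    (i : I) (s : I × Bool → ℝ) :
    GG ν (wv u κ s) (vj u κ (i, false)) F S +
      Complex.I * GG ν (wv u κ s) (vj u κ (i, true)) F S =
      κ * ((∫ x, (u i x : ℂ) * wv u κ s x ∂ν) * DD ν (wv u κ s) F S -
        2 * ag ν (u i) (DD ν (wv u κ s) F) S) := by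
  obtain ⟨R, hR⟩ := sum_bound s
  have h := GG_id ν hW hF κ (wv_meas1 u mu κ s) (mu i) (wv_bound u hu κ s R hR) (hu i) S
  have e1 : vj u κ (i, false) = fun x => (κ : ℂ) * (u i x : ℂ) := by
    funext x
    unfold vj
    simp
  have e2 : vj u κ (i, true) = fun x => Complex.I * ((κ : ℂ) * (u i x : ℂ)) := by
    funext x
    unfold vj
    simp
    ring
  rw [e1, e2]
  exact h

end fin

theorem der (hW : S_W1) (_ : S_W3) : S_DER := by
  intro X _ ν _ I _ _ u κ F S mu hu hF
  exact ⟨fun j s => GG ν (wv u κ s) (vj u κ j) F S, der1 ν hW u mu hu κ hF S,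
    der2 ν hW u mu hu κ hF S, der3 ν hW u mu hu κ hF S, der4 ν hW u mu hu κ hF S⟩

end

end Pool.Agent.W99.CB
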